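import Mathlib
import Pool.Agent.W635.DowForce
import Pool.Agent.W635.DowZfc

/-!
# MP_cba831_lc: small first-countable Dowker spaces do not yield Lusin sets

The first part says that a combinatorial principle is forced by a notion of forcing `P` (which
exists outright). `P` adds `ω₂` Cohen reals and then is a finite support iteration of Hechler
forcing of length `ω₂`, presented through names for promises. See `Pool.Agent.W635.DowDefs` for the
principle (`Principle` is the statement about actual objects, `ForcedPrinciple` the same statement
in the forcing language) and `Pool.Agent.Helper669.Forcing` for the forcing language.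

The second part is a theorem about actual objects: whenever the principle holds, there is a
first-countable, locally countable (and locally compact, σ-discrete) Dowker space of cardinality
`ℵ₁`, and there is no Lusin set. So the answer to the question is negative.
-/

set_option autoImplicit false

namespace Pool.Agent.Results.MP_cba831_lc.NoLusinDowker

open Set Cardinal Pool.Agent.W635.DowDefs Pool.Agent.W635.DowZfc

/-- A Dowker space: a normal `T₁` space which is not countably paracompact. -/
def DowkerSpace (X : Type) [TopologicalSpace X] : Prop :=
  T1Space X ∧ NormalSpace X ∧ ¬ CountablyParacompact X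

/-- (1) There is a notion of forcing `P` all of whose conditions force the principle (for some
well-ordered set `W` and `S ⊆ W`).
(2) If the principle holds, then there is a first-countable, locally countable, locally compact,
σ-discrete Dowker space of cardinality `ℵ₁`, and there is no Lusin set of reals. -/
theorem result :
    (∃ (P : Type) (_ : Preorder P) (W : Type) (_ : LinearOrder W) (_ : WellFoundedLT W)
      (S : Set W), Nonempty P ∧ ∀ p : P, p ∈ ForcedPrinciple P W S) ∧
    (∀ (W : Type) [LinearOrder W] [WellFoundedLT W] (S : Set W) (L : W → ℕ → W)
      (c : W → ℕ → ℕ), Principle W S L c →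
        (∃ (X : Type) (_ : TopologicalSpace X), DowkerSpace X ∧ FirstCountableTopology X ∧
          LocallyCountable X ∧ LocallyCompactSpace X ∧ SigmaDiscrete X ∧ #X = ℵ_ 1) ∧
        ¬ ∃ A : Set ℝ, IsLusin A) := by
  refine ⟨Pool.Agent.W635.Dow.exists_forcing, ?_⟩
  intro W _ _ S L c h
  exact ⟨⟨Sp h, inferInstance, ⟨inferInstance, inferInstance, not_cp⟩, inferInstance,
    locallyCountable, inferInstance, sigmaDiscrete, mk_Sp⟩, no_lusin h⟩

end Pool.Agent.Results.MP_cba831_lc.NoLusinDowker
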